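import Pool.Agent.L5helper68.TF.Defs

/-!
# Varieties whose cohomology is built from the cohomology of a given variety
-/

set_option autoImplicit false

open CategoryTheory AlgebraicGeometry

universe u w

namespace Pool.Agent.L5helper68.TU

open Pool.Agent.H914 Pool.Agent.H914.VarClass Pool.Agent.H914.VarClass.Obj
  Pool.Agent.H914.WeilCohomology Pool.Agent.TH125.Gal Pool.Agent.W552 Pool.Agent.H281R3.HT
  Pool.Agent.L5helper68.TF

section Alg

variable {K : Type} [Field K] {A B C : Type} [Ring A] [Algebra K A] [Ring B] [Algebra K B]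
  [Ring C] [Algebra K C] {Γ : Type} [Group Γ]

/-- The algebra of functions on the kernel of `χ` which is generated by the matrix coefficients
`g ↦ φ(g x)`, `x ∈ A`: the functions on the Zariski closure of the image of the kernel of `χ` in
the endomorphisms of `A`. -/
def coefAlgebra (χ : Γ →* Kˣ) (ρ : Γ →* (A ≃ₐ[K] A)) : Subalgebra K (χ.ker → K) :=
  Algebra.adjoin K {f | ∃ (φ : A →ₗ[K] K) (x : A), f = fun g : χ.ker => φ (ρ g x)}

/-- The dimension of the Zariski closure of the image of the kernel of `χ` in the endomorphisms of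
`A`. -/
noncomputable def coefDim (χ : Γ →* Kˣ) (ρ : Γ →* (A ≃ₐ[K] A)) : WithBot ℕ∞ :=
  ringKrullDim (coefAlgebra χ ρ)

/-- There is a subgroup `Δ` of finite index such that each matrix coefficient of `B` agrees with an
element of the algebra generated by the matrix coefficients of `A` on the elements `g ∈ Δ` with
`χ(g) = 1`. -/
def BuiltAct (χ : Γ →* Kˣ) (ρ : Γ →* (A ≃ₐ[K] A)) (τ : Γ →* (B ≃ₐ[K] B)) : Prop :=
  ∃ Δ : Subgroup Γ, Δ.FiniteIndex ∧ ∀ (φ : B →ₗ[K] K) (y : B),
    ∃ r ∈ coefAlgebra χ ρ, ∀ g : χ.ker, (g : Γ) ∈ Δ → φ (τ g y) = r g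

/-- There are linear maps from `C` to `A` and `B` which are equivariant for the elements `g` with
`χ(g) = 1` of a subgroup of finite index, and together injective. -/
def PartAct (χ : Γ →* Kˣ) (τ : Γ →* (C ≃ₐ[K] C)) (ρ : Γ →* (A ≃ₐ[K] A))
    (ρ' : Γ →* (B ≃ₐ[K] B)) : Prop :=
  ∃ (p : C →ₗ[K] A) (q : C →ₗ[K] B) (Δ : Subgroup Γ), Δ.FiniteIndex ∧
    (∀ x, p x = 0 → q x = 0 → x = 0) ∧
    ∀ g ∈ Δ, χ g = 1 → ∀ x, p (τ g x) = ρ g (p x) ∧ q (τ g x) = ρ' g (q x)

end Alg

variable {k : Type u} [Field k] {𝒱 : VarClass k} {ops : CycleOps 𝒱}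
  {W : WeilCohomology.{u, 0} ops} {Γ : Type} [Group Γ]

/-- The cohomology of `Y` is built from the cohomology of `Z`, up to twists and finite extensions:
there is a subgroup `Δ` of finite index such that each matrix coefficient of `H(Y)` agrees with an
element of the algebra generated by the matrix coefficients of `H(Z)` on the elements `g ∈ Δ` with
`χ(g) = 1`. -/
def BuiltFrom (χ : Γ →* W.Kˣ) (Z Y : GVar W Γ) : Prop := BuiltAct χ Z.act Y.act

/-- The smallest class of varieties with action which contains `Z`, all products `Q` of members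
`Y` and `Y'` (with an action compatible with the projections), and all `Q` for which `H(Q)` is a
part of the sum of `H(Y)` and `H(Y')` for members `Y` and `Y'` (for instance the varieties
dominated by a member, or blow-ups of members in members). -/
inductive Tower (χ : Γ →* W.Kˣ) (Z : GVar W Γ) : GVar W Γ → Prop
  | self : Tower χ Z Z
  | prod {Y Y' Q : GVar W Γ} : Tower χ Z Y → Tower χ Z Y' → IsProduct Y Y' Q → Tower χ Z Q
  | part {Y Y' Q : GVar W Γ} : Tower χ Z Y → Tower χ Z Y' → PartAct χ Q.act Y.act Y'.act →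
      Tower χ Z Q

end Pool.Agent.L5helper68.TU
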