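import Pool.Agent.L5helper68.TU.Fun

/-!
# A finite exceptional set for the algebra of matrix coefficients
-/

set_option autoImplicit false

namespace Pool.Agent.L5helper68.TU

open Module Pool.Agent.L5helper68.TF

universe u v w x

variable {G : Type u} [Group G] {K : Type x} [Field K] {ι : Type w}

/-- The intersection of the subgroups with index in `F`. -/
def KF (N : ι → Subgroup G) (F : Finset ι) : Subgroup G := ⨅ i ∈ F, N i

theorem mem_KF {N : ι → Subgroup G} {F : Finset ι} {g : G} : g ∈ KF N F ↔ ∀ i ∈ F, g ∈ N i := by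
  unfold KF
  simp only [Subgroup.mem_iInf]

theorem Ker_eq {N : ι → Subgroup G} {F : Finset ι} :
    Ker (1 : G →* G) N F = (KF N F : Set G) := by
  ext g
  rw [SetLike.mem_coe, mem_KF]
  exact ⟨fun h => h.2, fun h => ⟨rfl, h⟩⟩

theorem KF_anti {N : ι → Subgroup G} {F F' : Finset ι} (h : F ⊆ F') : KF N F' ≤ KF N F := by
  intro g hg
  rw [mem_KF] at hg ⊢
  exact fun i hi => hg i (h hi)

/-- The function agrees locally with elements of `R`. -/
def Loc (R : Subalgebra K (G → K)) (f : G → K) : Prop :=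
  ∃ Δ : Subgroup G, Δ.FiniteIndex ∧ ∀ x, ∃ r ∈ R, ∀ g ∈ Δ, f (x * g) = r (x * g)

/-- the functions with finite orbits -/
abbrev NR (K : Type x) [Field K] (N : ι → Subgroup G) (F : Finset ι) : Submodule K (G → K) :=
  NF (1 : G →* G) N (rt (K := K)) F

variable {R : Subalgebra K (G → K)} {N : ι → Subgroup G}

theorem NR_of_van [IsNoetherianRing R] (hR : Inv R) {F F' : Finset ι}
    (h : van R (KF N F') ≤ van R (KF N F)) {f : G → K} (hf : Loc R f) (hF : f ∈ NR K N F') :
    f ∈ NR K N F := by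
  obtain ⟨Δ, hΔ, hloc⟩ := hf
  obtain ⟨S, hS, hSv⟩ := van_uniform (R := R) (KF N F)
  rw [mem_NF, Ker_eq] at hF ⊢
  let T : Subgroup G :=
    { carrier := {s | ∀ g, f (g * s) = f g}
      mul_mem' := by
        intro a b ha hb g
        rw [← mul_assoc, hb, ha]
      one_mem' := by
        intro g
        rw [mul_one]
      inv_mem' := by
        intro a ha g
        rw [← ha (g * a⁻¹), inv_mul_cancel_right] }
  have hT : T.relIndex (KF N F') ≠ 0 := by
    refine relIndex_of_finite hF fun a _ b _ hab g => ?_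
    have h1 := congrFun hab (g * a⁻¹)
    change f (g * a⁻¹ * a) = f (g * a⁻¹ * b) at h1
    rw [inv_mul_cancel_right, mul_assoc] at h1
    exact h1.symm
  have hΔ' : ∀ H : Subgroup G, Δ.relIndex H ≠ 0 := by
    intro H h0
    exact hΔ.index_ne_zero (Subgroup.index_eq_zero_of_relIndex_eq_zero h0)
  refine finite_of_relIndex (S := S ⊓ Δ) (Subgroup.relIndex_inf_ne_zero hS (hΔ' _)) ?_
  rintro a - s ⟨hs, hsΔ⟩ hsK
  refine funext fun x => ?_
  change f (x * (a * s)) = f (x * a)
  rw [← mul_assoc]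
  obtain ⟨r, hr, hfr⟩ := hloc (x * a)
  -- the difference
  let q : R := ⟨ltA (x * a) r, hR.left _ _ hr⟩ - algebraMap K R (r (x * a))
  have hq : ∀ g, (q : G → K) g = r (x * a * g) - r (x * a) := fun g => rfl
  have h1 : q ∈ van R (KF N F') := by
    refine ⟨T ⊓ Δ, Subgroup.relIndex_inf_ne_zero hT (hΔ' _), ?_⟩
    rintro t ⟨ht, htΔ⟩ -
    rw [hq, ← hfr t htΔ, ht, sub_eq_zero]
    have h2 := hfr 1 Δ.one_mem
    rwa [mul_one] at h2
  have h2 := (hSv q).1 (h h1) s hs hsK
  rw [hq, sub_eq_zero] at h2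
  have h3 := hfr 1 Δ.one_mem
  rw [mul_one] at h3
  rw [hfr s hsΔ, h2, h3]

variable (R N) in
/-- The set is not exceptional. -/
def Good (F : Finset ι) : Prop := ∀ f, Loc R f → f ∈ NR K N F → f ∈ NR K N ∅

theorem exists_max [IsNoetherianRing R] [DecidableEq ι] (A : Set ι) :
    ∃ F₀ : Finset ι, ↑F₀ ⊆ A ∧ ∀ F : Finset ι, ↑F ⊆ A → van R (KF N F) ≤ van R (KF N F₀) := by
  obtain ⟨I, ⟨F₀, hF₀, rfl⟩, hmax⟩ := (wellFounded_gt (α := Ideal R)).has_min
    {I | ∃ F : Finset ι, ↑F ⊆ A ∧ van R (KF N F) = I} ⟨_, ∅, by simp, rfl⟩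
  refine ⟨F₀, hF₀, fun F hF => ?_⟩
  have h1 := hmax (van R (KF N (F ∪ F₀))) ⟨F ∪ F₀, by
    rw [Finset.coe_union]
    exact Set.union_subset hF hF₀, rfl⟩
  have h2 : van R (KF N F₀) ≤ van R (KF N (F ∪ F₀)) :=
    van_mono (KF_anti Finset.subset_union_right)
  have h3 : van R (KF N (F ∪ F₀)) = van R (KF N F₀) := by
    by_contra h
    exact h1 (lt_of_le_of_ne h2 fun h' => h h'.symm)
  rw [← h3]
  exact van_mono (KF_anti Finset.subset_union_left)

theorem exists_chain [IsNoetherianRing R] [DecidableEq ι] (hR : Inv R)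
    (hN : Independent (1 : G →* G) N) :
    ∀ n, ∀ A : Set ι, (¬∃ E : Finset ι, ↑E ⊆ A ∧ E.card < n ∧
      ∀ F : Finset ι, ↑F ⊆ A → Disjoint F E → Good R N F) →
      ∃ c : ℕ → Ideal R, (∀ m, m < n → c m < c (m + 1)) ∧ (∀ m, m ≤ n → (c m).IsPrime) ∧
        ∃ F : Finset ι, ↑F ⊆ A ∧ c n = van R (KF N F) := by
  classical
  intro n
  induction n with
  | zero =>
    intro A _
    exact ⟨fun _ => van R (KF N ∅), fun m hm => absurd hm (Nat.not_lt_zero m),
      fun _ _ => van_prime hR _, ∅, by simp, rfl⟩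
  | succ n ih =>
    intro A hA
    -- a minimal bad set
    have hbad : ∃ F : Finset ι, ↑F ⊆ A ∧ ¬Good R N F := by
      by_contra h
      push Not at h
      exact hA ⟨∅, by simp, by simp, fun F hF _ => h F hF⟩
    have hex : ∃ m, ∃ F : Finset ι, ↑F ⊆ A ∧ ¬Good R N F ∧ F.card = m := by
      obtain ⟨F, hF, h⟩ := hbad
      exact ⟨_, F, hF, h, rfl⟩
    obtain ⟨F₁, hFA, hFb, hFc⟩ := Nat.find_spec hex
    have hmin : ∀ F' : Finset ι, F' ⊂ F₁ → Good R N F' := by
      intro F' hF'
      by_contra h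
      have h1 := Nat.find_min' hex ⟨F', (Finset.coe_subset.2 hF'.1).trans hFA, h, rfl⟩
      have h2 := Finset.card_lt_card hF'
      omega
    have hne : F₁.Nonempty := by
      rw [Finset.nonempty_iff_ne_empty]
      rintro rfl
      exact hFb fun f _ h => h
    obtain ⟨i, hi⟩ := hne
    obtain ⟨c, hc1, hc2, F', hF', hc3⟩ := ih (A \ {i}) (by
      rintro ⟨E, hE, hcard, hE2⟩
      refine hA ⟨insert i E, ?_, ?_, ?_⟩
      · rw [Finset.coe_insert]
        exact Set.insert_subset (hFA hi) (hE.trans Set.sdiff_subset)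
      · have := Finset.card_insert_le i E
        omega
      · intro F hF hd
        rw [Finset.disjoint_insert_right] at hd
        refine hE2 F (fun j hj => ⟨hF hj, fun h => hd.1 ?_⟩) hd.2
        rw [Set.mem_singleton_iff] at h
        exact h ▸ hj)
    obtain ⟨F₀, hF₀, hmax⟩ := exists_max (R := R) (N := N) A
    have hlt : c n < van R (KF N F₀) := by
      rw [hc3]
      refine lt_of_le_of_ne (hmax F' (hF'.trans Set.sdiff_subset)) fun h => hFb fun f hf hfF => ?_
      have h1 : f ∈ NR K N F' := NR_of_van hR (h ▸ hmax F₁ hFA) hf hfF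
      refine hmin (F₁ ∩ F') ⟨Finset.inter_subset_left, fun h => ?_⟩ f hf
        (NF_inter hN F₁ F' ⟨hfF, h1⟩)
      exact (hF' (Finset.mem_coe.2 (Finset.mem_inter.1 (h hi)).2)).2 rfl
    refine ⟨fun m => if m ≤ n then c m else van R (KF N F₀), ?_, ?_, F₀, hF₀, ?_⟩
    · intro m hm
      beta_reduce
      rcases Nat.lt_or_ge m n with h | h
      · rw [if_pos h.le, if_pos (by omega)]
        exact hc1 m h
      · obtain rfl : m = n := by omega
        rw [if_pos le_rfl, if_neg (by omega)]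
        exact hlt
    · intro m _
      beta_reduce
      by_cases h : m ≤ n
      · rw [if_pos h]
        exact hc2 m h
      · rw [if_neg h]
        exact van_prime hR _
    · beta_reduce
      rw [if_neg (by omega)]

/-- **The exceptional set**: its number of elements is at most the dimension of the Zariski
closure. -/
theorem exists_exceptional [IsNoetherianRing R] (hR : Inv R)
    (hN : Independent (1 : G →* G) N) :
    ∃ E : Finset ι, ((E.card : ℕ) : WithBot ℕ∞) ≤ ringKrullDim R ∧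
      ∀ F : Finset ι, Disjoint F E → Good R N F := by
  classical
  have hex : ∃ n, ∃ E : Finset ι, (∀ F : Finset ι, Disjoint F E → Good R N F) ∧ E.card = n := by
    obtain ⟨F₀, -, hmax⟩ := exists_max (R := R) (N := N) Set.univ
    refine ⟨_, F₀, fun F hd f hf hF => ?_, rfl⟩
    have h1 : f ∈ NR K N F₀ := NR_of_van hR (hmax F (Set.subset_univ _)) hf hF
    have h2 := NF_inter hN F F₀ ⟨hF, h1⟩
    rwa [Finset.disjoint_iff_inter_eq_empty.1 hd] at h2
  obtain ⟨E, hE, hcard⟩ := Nat.find_spec hex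
  refine ⟨E, ?_, hE⟩
  obtain ⟨c, hc1, hc2, -⟩ := exists_chain (R := R) (N := N) hR hN E.card Set.univ (by
    rintro ⟨E', -, h1, h2⟩
    rw [hcard] at h1
    exact Nat.find_min hex h1 ⟨E', fun F hF => h2 F (Set.subset_univ _) hF, rfl⟩)
  let l : LTSeries (PrimeSpectrum R) :=
    { length := E.card
      toFun := fun m => ⟨c m, hc2 m (Nat.lt_succ_iff.1 m.2)⟩
      step := fun m => by
        have h1 := hc1 m m.2
        exact h1 }
  exact Order.LTSeries.length_le_krullDim l

end Pool.Agent.L5helper68.TU
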