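import Pool.Agent.L5helper68.TF.Core

/-!
# Functions on a group with finite orbits under an independent family of normal subgroups
-/

set_option autoImplicit false

namespace Pool.Agent.L5helper68.TU

open Module Pool.Agent.L5helper68.TF

universe u v w x

section index

variable {G : Type u} [Group G] {X : Type v}

theorem relIndex_of_finite {S H : Subgroup G} {φ : G → X} (hφ : (φ '' (H : Set G)).Finite)
    (h : ∀ a ∈ H, ∀ b ∈ H, φ a = φ b → a⁻¹ * b ∈ S) : S.relIndex H ≠ 0 := by
  classical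
  have : Finite (φ '' (H : Set G)) := hφ
  let f : H ⧸ S.subgroupOf H → φ '' (H : Set G) := fun q => ⟨φ (q.out : H), _, q.out.2, rfl⟩
  have hf : Function.Injective f := by
    intro q q' hq
    have h1 := h _ q.out.2 _ q'.out.2 (congrArg Subtype.val hq)
    rw [← QuotientGroup.out_eq' q, ← QuotientGroup.out_eq' q']
    exact QuotientGroup.eq.2 h1
  have : Finite (H ⧸ S.subgroupOf H) := Finite.of_injective f hf
  exact Subgroup.index_ne_zero_of_finite

theorem finite_of_relIndex {S H : Subgroup G} {φ : G → X} (hS : S.relIndex H ≠ 0)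
    (h : ∀ a ∈ H, ∀ s ∈ S, s ∈ H → φ (a * s) = φ a) : (φ '' (H : Set G)).Finite := by
  classical
  have : (S.subgroupOf H).FiniteIndex := ⟨hS⟩
  have : Finite (H ⧸ S.subgroupOf H) := Subgroup.finite_quotient_of_finiteIndex
  refine (Set.finite_range fun q : H ⧸ S.subgroupOf H => φ (q.out : H)).subset ?_
  rintro _ ⟨a, ha, rfl⟩
  refine ⟨((⟨a, ha⟩ : H) : H ⧸ S.subgroupOf H), ?_⟩
  beta_reduce
  obtain ⟨s, hs⟩ := QuotientGroup.mk_out_eq_mul (S.subgroupOf H) ⟨a, ha⟩
  rw [hs]
  exact h a ha _ s.2 (s : H).2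

end index

section ass

/-- the associated prime ideals -/
theorem exists_ass {A : Type u} [CommRing A] [IsNoetherianRing A] {J : Ideal A} (hJ : J ≠ ⊤) :
    ∃ P : Set (Ideal A), P.Finite ∧ P.Nonempty ∧
      ∀ p, p ∈ P ↔ p.IsPrime ∧ ∃ f, ∀ r, r ∈ p ↔ r * f ∈ J := by
  have hnt : Nontrivial (A ⧸ J) := Ideal.Quotient.nontrivial_iff.2 hJ
  refine ⟨associatedPrimes A (A ⧸ J), associatedPrimes.finite A (A ⧸ J),
    associatedPrimes.nonempty A (A ⧸ J), fun p => ?_⟩
  rw [AssociatedPrimes.mem_iff, isAssociatedPrime_iff]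
  have key : ∀ f r : A, r ∈ Submodule.colon (⊥ : Submodule A (A ⧸ J)) {Ideal.Quotient.mk J f} ↔
      r * f ∈ J := by
    intro f r
    rw [Submodule.mem_colon_singleton, Submodule.mem_bot, Algebra.smul_def,
      Ideal.Quotient.algebraMap_eq, ← map_mul, Ideal.Quotient.eq_zero_iff_mem]
  refine and_congr_right fun _ => ⟨?_, ?_⟩
  · rintro ⟨x, rfl⟩
    obtain ⟨f, rfl⟩ := Ideal.Quotient.mk_surjective x
    exact ⟨f, key f⟩
  · rintro ⟨f, hf⟩
    refine ⟨Ideal.Quotient.mk J f, Ideal.ext fun r => ?_⟩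
    rw [hf, key]

end ass

section fun_

variable {G : Type u} [Group G] {K : Type x} [Field K]

/-- the right translation of functions -/
def rt : G →* Module.End K (G → K) where
  toFun h :=
    { toFun := fun f g => f (g * h)
      map_add' := fun _ _ => rfl
      map_smul' := fun _ _ => rfl }
  map_one' := by
    ext f g
    simp
  map_mul' a b := by
    refine LinearMap.ext fun f => funext fun g => ?_
    change f (g * (a * b)) = f (g * a * b)
    rw [mul_assoc]

theorem rt_apply (h : G) (f : G → K) (g : G) : rt h f g = f (g * h) := rfl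

/-- the right translation as a homomorphism of algebras -/
def rtA (h : G) : (G → K) →ₐ[K] (G → K) where
  toFun f := fun g => f (g * h)
  map_one' := rfl
  map_mul' _ _ := rfl
  map_zero' := rfl
  map_add' _ _ := rfl
  commutes' _ := rfl

/-- the left translation as a homomorphism of algebras -/
def ltA (h : G) : (G → K) →ₐ[K] (G → K) where
  toFun f := fun g => f (h * g)
  map_one' := rfl
  map_mul' _ _ := rfl
  map_zero' := rfl
  map_add' _ _ := rfl
  commutes' _ := rfl

/-- The algebra of functions is stable under the translations. -/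
structure Inv (R : Subalgebra K (G → K)) : Prop where
  left : ∀ h, ∀ f ∈ R, ltA h f ∈ R
  right : ∀ h, ∀ f ∈ R, rtA h f ∈ R

/-- The ideal of the functions which vanish on a subgroup of finite index of `H`. -/
def van (R : Subalgebra K (G → K)) (H : Subgroup G) : Ideal R where
  carrier := {r | ∃ S : Subgroup G, S.relIndex H ≠ 0 ∧ ∀ g ∈ S, g ∈ H → (r : G → K) g = 0}
  add_mem' := by
    rintro a b ⟨S, hS, ha⟩ ⟨T, hT, hb⟩
    refine ⟨S ⊓ T, Subgroup.relIndex_inf_ne_zero hS hT, fun g hg hgH => ?_⟩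
    change (a : G → K) g + (b : G → K) g = 0
    rw [ha g hg.1 hgH, hb g hg.2 hgH, add_zero]
  zero_mem' := ⟨⊤, by rw [Subgroup.relIndex_top_left]; exact one_ne_zero, fun _ _ _ => rfl⟩
  smul_mem' := by
    rintro c a ⟨S, hS, ha⟩
    refine ⟨S, hS, fun g hg hgH => ?_⟩
    change (c : G → K) g * (a : G → K) g = 0
    rw [ha g hg hgH, mul_zero]

variable {R : Subalgebra K (G → K)} {H : Subgroup G}

theorem mem_van {r : R} :
    r ∈ van R H ↔ ∃ S : Subgroup G, S.relIndex H ≠ 0 ∧ ∀ g ∈ S, g ∈ H → (r : G → K) g = 0 :=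
  Iff.rfl

theorem van_mono {H' : Subgroup G} (h : H' ≤ H) : van R H ≤ van R H' := by
  rintro r ⟨S, hS, hr⟩
  refine ⟨S, fun h0 => hS (Subgroup.relIndex_eq_zero_of_le_right h h0), fun g hg hgH =>
    hr g hg (h hgH)⟩

/-- one subgroup of finite index for all functions -/
theorem van_uniform [IsNoetherianRing R] (H : Subgroup G) :
    ∃ S : Subgroup G, S.relIndex H ≠ 0 ∧
      ∀ r : R, r ∈ van R H ↔ ∀ g ∈ S, g ∈ H → (r : G → K) g = 0 := by
  classical
  obtain ⟨s, hs⟩ := (isNoetherianRing_iff_ideal_fg R).1 inferInstance (van R H)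
  have h1 : ∀ r : s, ∃ S : Subgroup G, S.relIndex H ≠ 0 ∧
      ∀ g ∈ S, g ∈ H → ((r : R) : G → K) g = 0 := by
    intro r
    rw [← mem_van, ← hs]
    exact Ideal.subset_span r.2
  choose S hS hr using h1
  refine ⟨⨅ r, S r, Subgroup.relIndex_iInf_ne_zero hS, fun r => ⟨fun h g hg hgH => ?_, fun h =>
    ⟨_, Subgroup.relIndex_iInf_ne_zero hS, h⟩⟩⟩
  rw [← hs] at h
  refine Submodule.span_induction (p := fun (r : R) _ => (r : G → K) g = 0) ?_ rfl ?_ ?_ h
  · intro r hrs
    exact hr ⟨r, hrs⟩ g (Subgroup.mem_iInf.1 hg _) hgH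
  · intro a b _ _ ha hb
    change (a : G → K) g + (b : G → K) g = 0
    rw [ha, hb, add_zero]
  · intro c a _ ha
    change (c : G → K) g * (a : G → K) g = 0
    rw [ha, mul_zero]

/-- the right translation on `R` -/
def rtR (hR : Inv R) (h : G) : R →ₐ[K] R :=
  ((rtA h).comp R.val).codRestrict R fun r => hR.right h _ r.2

theorem rtR_apply (hR : Inv R) (h : G) (r : R) (g : G) :
    (rtR hR h r : G → K) g = (r : G → K) (g * h) := rfl

theorem rtR_mul (hR : Inv R) (a b : G) (r : R) : rtR hR a (rtR hR b r) = rtR hR (a * b) r := by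
  refine Subtype.ext (funext fun g => ?_)
  rw [rtR_apply, rtR_apply, rtR_apply, mul_assoc]

theorem rtR_one (hR : Inv R) (r : R) : rtR hR 1 r = r := by
  refine Subtype.ext (funext fun g => ?_)
  rw [rtR_apply, mul_one]

/-- **The ideal of the identity component is prime.** -/
theorem van_prime [IsNoetherianRing R] (hR : Inv R) (H : Subgroup G) : (van R H).IsPrime := by
  classical
  obtain ⟨S, hS, hSv⟩ := van_uniform (R := R) H
  -- an associated prime ideal
  have hne : van R H ≠ ⊤ := by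
    intro h
    have h1 : (1 : R) ∈ van R H := h ▸ Submodule.mem_top
    have h2 := (hSv 1).1 h1 1 S.one_mem H.one_mem
    exact one_ne_zero h2
  obtain ⟨P, hPfin, ⟨p, hpP⟩, hP⟩ := exists_ass hne
  obtain ⟨hp, f, hf⟩ := (hP p).1 hpP
  -- the subgroup S ⊓ H acts on the associated primes
  have hstab : ∀ s ∈ S ⊓ H, ∀ r : R, r ∈ van R H → rtR hR s r ∈ van R H := by
    intro s hs r hr
    rw [hSv] at hr ⊢
    intro g hg hgH
    rw [rtR_apply]
    exact hr _ (S.mul_mem hg hs.1) (H.mul_mem hgH hs.2)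
  have hact : ∀ s ∈ S ⊓ H, p.comap (rtR hR s) ∈ P := by
    intro s hs
    rw [hP]
    refine ⟨Ideal.comap_isPrime _ _, rtR hR s⁻¹ f, fun r => ?_⟩
    rw [Ideal.mem_comap, hf]
    constructor
    · intro h
      have h1 := hstab s⁻¹ ((S ⊓ H).inv_mem hs) _ h
      rw [map_mul, rtR_mul, inv_mul_cancel, rtR_one] at h1
      exact h1
    · intro h
      have h1 := hstab s hs _ h
      rw [map_mul, rtR_mul, mul_inv_cancel, rtR_one] at h1
      exact h1
  -- the stabilizer
  let T : Subgroup G :=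
    { carrier := {s | ∀ r, rtR hR s r ∈ p ↔ r ∈ p}
      mul_mem' := by
        intro a b ha hb r
        rw [← rtR_mul, ha, hb]
      one_mem' := by
        intro r
        rw [rtR_one]
      inv_mem' := by
        intro a ha r
        rw [← ha, rtR_mul, mul_inv_cancel, rtR_one] }
  have hT : T.relIndex (S ⊓ H) ≠ 0 := by
    refine relIndex_of_finite (φ := fun s => p.comap (rtR hR s⁻¹)) (hPfin.subset ?_) ?_
    · rintro _ ⟨s, hs, rfl⟩
      exact hact s⁻¹ ((S ⊓ H).inv_mem hs)
    · intro a _ b _ hab r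
      have h1 : rtR hR b r ∈ p.comap (rtR hR a⁻¹) ↔ rtR hR b r ∈ p.comap (rtR hR b⁻¹) := by
        rw [show p.comap (rtR hR a⁻¹) = p.comap (rtR hR b⁻¹) from hab]
      rw [Ideal.mem_comap, Ideal.mem_comap, rtR_mul, rtR_mul, inv_mul_cancel, rtR_one] at h1
      exact h1
  -- a point
  have hfv : f ∉ van R H := by
    intro h
    apply hp.ne_top
    rw [Ideal.eq_top_iff_one, hf, one_mul]
    exact h
  rw [hSv] at hfv
  push Not at hfv
  obtain ⟨x, hxS, hxH, hx⟩ := hfv
  have hle : p ≤ van R H := by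
    intro r hr
    -- the translate
    have h1 : (⟨ltA x r, hR.left x _ r.2⟩ : R) ∈ van R H := by
      refine ⟨T ⊓ (S ⊓ H), ?_, ?_⟩
      · have h2 : (S ⊓ H).relIndex H ≠ 0 := by
          rw [Subgroup.inf_relIndex_right]
          exact hS
        exact Subgroup.relIndex_inf_ne_zero (Subgroup.relIndex_ne_zero_trans hT h2) h2
      · rintro s ⟨hsT, hs⟩ -
        have h3 := (hf _).1 ((hsT r).2 hr)
        rw [hSv] at h3
        have h4 := h3 x hxS hxH
        change (r : G → K) (x * s) * (f : G → K) x = 0 at h4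
        change (r : G → K) (x * s) = 0
        exact (mul_eq_zero.1 h4).resolve_right hx
    rw [hSv] at h1 ⊢
    intro g hg hgH
    have h2 := h1 (x⁻¹ * g) (S.mul_mem (S.inv_mem hxS) hg) (H.mul_mem (H.inv_mem hxH) hgH)
    change (r : G → K) (x * (x⁻¹ * g)) = 0 at h2
    rwa [mul_inv_cancel_left] at h2
  have hge : van R H ≤ p := by
    intro r hr
    rw [hf]
    exact Ideal.mul_mem_right _ _ hr
  rw [← le_antisymm hle hge]
  exact hp

end fun_

end Pool.Agent.L5helper68.TU
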