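import Pool.Agent.L5helper68.TU.Exc

/-!
# Vectors with finite orbits in representations with matrix coefficients in a given algebra
-/

set_option autoImplicit false

namespace Pool.Agent.L5helper68.TU

open Module Pool.Agent.L5helper68.TF

universe u v w x

section indep

variable {Γ : Type u} [Group Γ] {C : Type v} [Group C] {ι : Type w} {χ : Γ →* C}
  {N : ι → Subgroup Γ}

/-- the family on the kernel of `χ` -/
def res (χ : Γ →* C) (N : ι → Subgroup Γ) (i : ι) : Subgroup χ.ker := (N i).subgroupOf χ.ker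

theorem res_indep (h : Independent χ N) : Independent (1 : χ.ker →* χ.ker) (res χ N) := by
  classical
  constructor
  · intro i
    have := h.1 i
    exact Subgroup.normal_subgroupOf
  · intro F
    obtain ⟨Δ, hΔ, h1⟩ := h.2 F
    refine ⟨Δ.subgroupOf χ.ker, inferInstance, fun g hg => ?_⟩
    obtain ⟨a, ha, h2⟩ := h1 (fun i => (g i : Γ)) fun i => ⟨(hg i).1, (g i).2⟩
    exact ⟨⟨a, ha⟩, rfl, fun i hi => h2 i hi⟩

theorem mem_KF_res {F : Finset ι} {g : χ.ker} :
    g ∈ KF (res χ N) F ↔ (g : Γ) ∈ Ker χ N F := by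
  rw [mem_KF]
  exact ⟨fun h => ⟨g.2, fun i hi => h i hi⟩, fun h i hi => h.2 i hi⟩

end indep

variable {Γ : Type u} [Group Γ] {C : Type v} [Group C] {ι : Type w} {χ : Γ →* C}
  {N : ι → Subgroup Γ} {K : Type x} [Field K] {M : Type*} [AddCommGroup M] [Module K M]
  {ρ : Γ →* Module.End K M}

theorem mem_NF_res {F : Finset ι} {y : M} :
    y ∈ NF χ N ρ F ↔ ((fun g : χ.ker => ρ g y) '' (KF (res χ N) F : Set χ.ker)).Finite := by
  rw [mem_NF]
  have h : (fun g => ρ g y) '' Ker χ N F =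
      (fun g : χ.ker => ρ g y) '' (KF (res χ N) F : Set χ.ker) := by
    ext z
    constructor
    · rintro ⟨g, hg, rfl⟩
      exact ⟨⟨g, hg.1⟩, mem_KF_res.2 hg, rfl⟩
    · rintro ⟨g, hg, rfl⟩
      exact ⟨g, mem_KF_res.1 hg, rfl⟩
  rw [h]

/-- the subgroup of the elements which fix a function -/
def fixS {G : Type u} [Group G] (f : G → K) : Subgroup G where
  carrier := {s | ∀ g, f (g * s) = f g}
  mul_mem' := by
    intro a b ha hb g
    rw [← mul_assoc, hb, ha]
  one_mem' := by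
    intro g
    rw [mul_one]
  inv_mem' := by
    intro a ha g
    rw [← ha (g * a⁻¹), inv_mul_cancel_right]

theorem fixS_relIndex {G : Type u} [Group G] {N : ι → Subgroup G} {F : Finset ι} {f : G → K}
    (hf : f ∈ NR K N F) : (fixS f).relIndex (KF N F) ≠ 0 := by
  rw [mem_NF, Ker_eq] at hf
  refine relIndex_of_finite hf fun a _ b _ hab g => ?_
  have h1 := congrFun hab (g * a⁻¹)
  change f (g * a⁻¹ * a) = f (g * a⁻¹ * b) at h1
  rw [inv_mul_cancel_right, mul_assoc] at h1
  exact h1.symm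

theorem KF_empty {G : Type u} [Group G] {N : ι → Subgroup G} : KF N ∅ = ⊤ := by
  rw [eq_top_iff]
  intro g _
  rw [mem_KF]
  exact fun i hi => absurd hi (Finset.notMem_empty i)

/-- **Transfer.** -/
theorem NF_of_good [FiniteDimensional K M] {R : Subalgebra K (χ.ker → K)} {F : Finset ι}
    (hgood : Good R (res χ N) F) {Δ : Subgroup Γ} (hΔ : Δ.FiniteIndex)
    (hcoef : ∀ (φ : Dual K M) (y : M), ∃ r ∈ R, ∀ g : χ.ker, (g : Γ) ∈ Δ → φ (ρ g y) = r g) :
    NF χ N ρ F ≤ NF χ N ρ ∅ := by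
  classical
  intro y hy
  rw [mem_NF_res] at hy ⊢
  have hΔ0 : (Δ.subgroupOf χ.ker).FiniteIndex := inferInstance
  have hΔ' : ∀ H : Subgroup χ.ker, (Δ.subgroupOf χ.ker).relIndex H ≠ 0 := by
    intro H h0
    exact hΔ0.index_ne_zero (Subgroup.index_eq_zero_of_relIndex_eq_zero h0)
  -- the stabilizer of the vector
  let S : Subgroup χ.ker :=
    { carrier := {s | ρ s y = y}
      mul_mem' := by
        intro a b ha hb
        change ρ ((a * b : χ.ker) : Γ) y = y
        rw [Subgroup.coe_mul, ρ_mul, hb, ha]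
      one_mem' := by
        change ρ ((1 : χ.ker) : Γ) y = y
        rw [Subgroup.coe_one, map_one]
        rfl
      inv_mem' := by
        intro a ha
        change ρ ((a⁻¹ : χ.ker) : Γ) y = y
        conv_lhs => rw [← show ρ a y = y from ha, Subgroup.coe_inv, ← ρ_mul, inv_mul_cancel,
          map_one]
        rfl }
  have hS : S.relIndex (KF (res χ N) F) ≠ 0 := by
    refine relIndex_of_finite hy fun a _ b _ hab => ?_
    change ρ ((a⁻¹ * b : χ.ker) : Γ) y = y
    rw [Subgroup.coe_mul, ρ_mul, ← show ρ a y = ρ b y from hab, Subgroup.coe_inv, ← ρ_mul,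
      inv_mul_cancel, map_one]
    rfl
  -- the functions
  let f : Dual K M → χ.ker → K := fun φ g => if (g : Γ) ∈ Δ then φ (ρ g y) else 0
  have hloc : ∀ φ, Loc R (f φ) := by
    intro φ
    refine ⟨Δ.subgroupOf χ.ker, hΔ0, fun x => ?_⟩
    obtain ⟨r, hr, h1⟩ := hcoef φ y
    by_cases hx : (x : Γ) ∈ Δ
    · refine ⟨r, hr, fun g hg => ?_⟩
      have h2 : ((x * g : χ.ker) : Γ) ∈ Δ := Δ.mul_mem hx hg
      change (if ((x * g : χ.ker) : Γ) ∈ Δ then _ else _) = _
      rw [if_pos h2]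
      exact h1 _ h2
    · refine ⟨0, R.zero_mem, fun g hg => ?_⟩
      have h2 : ((x * g : χ.ker) : Γ) ∉ Δ := fun h => hx ((Subgroup.mul_mem_cancel_right Δ hg).1 h)
      change (if ((x * g : χ.ker) : Γ) ∈ Δ then _ else _) = _
      rw [if_neg h2]
      rfl
  have hfin : ∀ φ, f φ ∈ NR K (res χ N) F := by
    intro φ
    rw [mem_NF, Ker_eq]
    refine finite_of_relIndex (S := S ⊓ Δ.subgroupOf χ.ker)
      (Subgroup.relIndex_inf_ne_zero hS (hΔ' _)) ?_
    rintro a - s ⟨hs, hsΔ⟩ -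
    refine funext fun g => ?_
    change (if ((g * (a * s) : χ.ker) : Γ) ∈ Δ then φ (ρ ((g * (a * s) : χ.ker) : Γ) y) else 0) =
      if ((g * a : χ.ker) : Γ) ∈ Δ then φ (ρ ((g * a : χ.ker) : Γ) y) else 0
    have h1 : ((g * (a * s) : χ.ker) : Γ) = ((g * a : χ.ker) : Γ) * (s : Γ) := by
      rw [← mul_assoc, Subgroup.coe_mul]
    have h2 : ((g * (a * s) : χ.ker) : Γ) ∈ Δ ↔ ((g * a : χ.ker) : Γ) ∈ Δ := by
      rw [h1]
      exact Subgroup.mul_mem_cancel_right Δ hsΔ
    have h3 : ρ ((g * (a * s) : χ.ker) : Γ) y = ρ ((g * a : χ.ker) : Γ) y := by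
      rw [h1, ρ_mul, show ρ s y = y from hs]
    rw [h3]
    by_cases h : ((g * a : χ.ker) : Γ) ∈ Δ
    · rw [if_pos h, if_pos (h2.2 h)]
    · rw [if_neg h, if_neg fun h' => h (h2.1 h')]
  -- the subgroup which fixes the vector
  let b := Module.finBasis K (Dual K M)
  let T : Subgroup χ.ker := (⨅ j, fixS (f (b j))) ⊓ Δ.subgroupOf χ.ker
  have hT : T.relIndex (KF (res χ N) ∅) ≠ 0 :=
    Subgroup.relIndex_inf_ne_zero (Subgroup.relIndex_iInf_ne_zero fun j =>
      fixS_relIndex (hgood _ (hloc _) (hfin _))) (hΔ' _)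
  refine finite_of_relIndex hT ?_
  rintro a - s ⟨hs, hsΔ⟩ -
  change ρ ((a * s : χ.ker) : Γ) y = ρ a y
  rw [Subgroup.coe_mul, ρ_mul]
  congr 1
  rw [← sub_eq_zero]
  refine (Module.forall_dual_apply_eq_zero_iff K _).1 fun φ => ?_
  rw [← b.sum_repr φ, LinearMap.sum_apply]
  refine Finset.sum_eq_zero fun j _ => ?_
  rw [LinearMap.smul_apply, map_sub]
  have h1 := (Subgroup.mem_iInf.1 hs j) 1
  have h2 : (f (b j)) (1 * s) = b j (ρ s y) := by
    change (if ((1 * s : χ.ker) : Γ) ∈ Δ then _ else _) = _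
    rw [one_mul]
    exact if_pos hsΔ
  have h3 : (f (b j)) 1 = b j y := by
    change (if ((1 : χ.ker) : Γ) ∈ Δ then _ else _) = _
    rw [Subgroup.coe_one, if_pos Δ.one_mem, map_one]
    rfl
  rw [h2, h3] at h1
  rw [h1, sub_self, smul_zero]

section coef

variable (χ ρ) in
/-- The algebra generated by the matrix coefficients. -/
def coefAlg : Subalgebra K (χ.ker → K) :=
  Algebra.adjoin K {f | ∃ (φ : Dual K M) (x : M), f = fun g : χ.ker => φ (ρ g x)}

theorem coefAlg_inv : Inv (coefAlg χ ρ) := by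
  constructor
  · intro h f hf
    have h1 : (coefAlg χ ρ).map (ltA h) ≤ coefAlg χ ρ := by
      unfold coefAlg
      rw [AlgHom.map_adjoin]
      refine Algebra.adjoin_mono ?_
      rintro _ ⟨_, ⟨φ, x, rfl⟩, rfl⟩
      refine ⟨φ ∘ₗ ρ h, x, funext fun g => ?_⟩
      change φ (ρ ((h * g : χ.ker) : Γ) x) = φ (ρ h (ρ g x))
      rw [Subgroup.coe_mul, ρ_mul]
    exact h1 (Subalgebra.mem_map.2 ⟨f, hf, rfl⟩)
  · intro h f hf
    have h1 : (coefAlg χ ρ).map (rtA h) ≤ coefAlg χ ρ := by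
      unfold coefAlg
      rw [AlgHom.map_adjoin]
      refine Algebra.adjoin_mono ?_
      rintro _ ⟨_, ⟨φ, x, rfl⟩, rfl⟩
      refine ⟨φ, ρ h x, funext fun g => ?_⟩
      change φ (ρ ((g * h : χ.ker) : Γ) x) = φ (ρ g (ρ h x))
      rw [Subgroup.coe_mul, ρ_mul]
    exact h1 (Subalgebra.mem_map.2 ⟨f, hf, rfl⟩)

theorem coefAlg_fg [FiniteDimensional K M] : (coefAlg χ ρ).FG := by
  classical
  let b := Module.finBasis K M
  refine Subalgebra.fg_def.2 ⟨Set.range fun p : Fin (finrank K M) × Fin (finrank K M) =>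
    (fun g : χ.ker => b.coord p.1 (ρ g (b p.2)) : χ.ker → K), Set.finite_range _, ?_⟩
  apply le_antisymm
  · refine Algebra.adjoin_mono ?_
    rintro _ ⟨p, rfl⟩
    exact ⟨b.coord p.1, b p.2, rfl⟩
  · refine Algebra.adjoin_le ?_
    rintro _ ⟨φ, x, rfl⟩
    have h1 : (fun g : χ.ker => φ (ρ g x)) = ∑ i, ∑ j, (φ (b i) * b.coord j x) •
        (fun g : χ.ker => b.coord i (ρ g (b j)) : χ.ker → K) := by
      refine funext fun g => ?_
      rw [Finset.sum_apply]
      simp only [Finset.sum_apply, Pi.smul_apply, smul_eq_mul]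
      have h2 : ρ g x = ∑ i, ∑ j, (b.coord j x * b.coord i (ρ g (b j))) • b i := by
        conv_lhs => rw [← b.sum_repr x]
        rw [map_sum, Finset.sum_comm]
        refine Finset.sum_congr rfl fun j _ => ?_
        rw [map_smul]
        conv_lhs => rw [← b.sum_repr (ρ g (b j))]
        rw [Finset.smul_sum]
        refine Finset.sum_congr rfl fun i _ => ?_
        rw [smul_smul]
        rfl
      conv_lhs => rw [h2]
      rw [map_sum]
      refine Finset.sum_congr rfl fun i _ => ?_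
      rw [map_sum]
      refine Finset.sum_congr rfl fun j _ => ?_
      rw [map_smul, smul_eq_mul]
      ring
    rw [h1]
    refine Subalgebra.sum_mem _ fun i _ => Subalgebra.sum_mem _ fun j _ =>
      Subalgebra.smul_mem _ (Algebra.subset_adjoin (Set.mem_range.2 ⟨(i, j), rfl⟩)) _

theorem coefAlg_noeth [FiniteDimensional K M] : IsNoetherianRing (coefAlg χ ρ) := by
  have : Algebra.FiniteType K (coefAlg χ ρ) := (Subalgebra.fg_iff_finiteType _).1 coefAlg_fg
  exact Algebra.FiniteType.isNoetherianRing K _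

end coef

end Pool.Agent.L5helper68.TU
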