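import Pool.Agent.L5helper68.TU.Defs
import Pool.Agent.L5helper68.TU.Rep
import Pool.Agent.L5helper68.TF.Geo

/-!
# The uniform exceptional set
-/

set_option autoImplicit false

open CategoryTheory AlgebraicGeometry

universe u w

namespace Pool.Agent.L5helper68.TU

open Module Pool.Agent.H914 Pool.Agent.H914.VarClass Pool.Agent.H914.VarClass.Obj
  Pool.Agent.H914.WeilCohomology Pool.Agent.H281R3.HT Pool.Agent.W552 Pool.Agent.TH125.Gal
  Pool.Agent.L5helper68.TF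
open Pool.Agent.N179.GR (ctr2 ctr2_apply TwSet TT tate_step tate_snd algR)

noncomputable section

variable {k : Type u} [Field k] {𝒱 : VarClass k} {ops : CycleOps 𝒱}
  {W : WeilCohomology.{u, 0} ops} {Γ : Type} [Group Γ] {χ : Γ →* W.Kˣ} {Z : GVar W Γ}

theorem built_prod {Y Y' Q : GVar W Γ} (hY : BuiltFrom χ Z Y) (hY' : BuiltFrom χ Z Y')
    (hQ : IsProduct Y Y' Q) : BuiltFrom χ Z Q := by
  classical
  obtain ⟨υ, h1, h2⟩ := hQ
  obtain ⟨Δ, hΔ, hc⟩ := hY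
  obtain ⟨Δ', hΔ', hc'⟩ := hY'
  refine ⟨Δ ⊓ Δ', inferInstance, fun φ z => ?_⟩
  change W.H (Y.X.prod Y'.X) at z
  refine W.kunneth_induction (p := fun z => ∃ r ∈ coefAlgebra χ Z.act, ∀ g : χ.ker,
    (g : Γ) ∈ Δ ⊓ Δ' → φ (υ g z) = r g) ?_ ?_ z
  · rintro a b ⟨r, hr, ha⟩ ⟨r', hr', hb⟩
    refine ⟨r + r', Subalgebra.add_mem _ hr hr', fun g hg => ?_⟩
    rw [map_add, map_add, ha g hg, hb g hg]
    rfl
  · intro i j a _ b _
    let e := Module.finBasis W.K (W.H Y.X)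
    let L : W.H Y.X → W.H Y'.X →ₗ[W.K] W.K := fun x =>
      { toFun := fun y => φ (W.map (fst Y.X Y'.X) x * W.map (snd Y.X Y'.X) y)
        map_add' := fun y y' => by rw [map_add, mul_add, map_add]
        map_smul' := fun c y => by
          rw [map_smul, mul_smul_comm, map_smul]
          rfl }
    choose r hr hrg using fun i => hc (e.coord i) a
    choose s hs hsg using fun i => hc' (L (e i)) b
    refine ⟨∑ i, r i * s i, Subalgebra.sum_mem _ fun i _ => Subalgebra.mul_mem _ (hr i) (hs i),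
      fun g hg => ?_⟩
    rw [map_mul, h1, h2]
    have h3 : Y.act g a = ∑ i, e.coord i (Y.act g a) • e i := (e.sum_repr _).symm
    rw [h3, map_sum, Finset.sum_mul, map_sum, Finset.sum_apply]
    refine Finset.sum_congr rfl fun i _ => ?_
    rw [map_smul, smul_mul_assoc, map_smul, Pi.mul_apply, ← hrg i g hg.1, ← hsg i g hg.2]
    rfl

theorem built_part {Y Y' Q : GVar W Γ} (hY : BuiltFrom χ Z Y) (hY' : BuiltFrom χ Z Y')
    (hQ : PartAct χ Q.act Y.act Y'.act) : BuiltFrom χ Z Q := by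
  classical
  obtain ⟨p, q, Δ₀, hΔ₀, hinj, heq⟩ := hQ
  obtain ⟨Δ, hΔ, hc⟩ := hY
  obtain ⟨Δ', hΔ', hc'⟩ := hY'
  refine ⟨Δ₀ ⊓ (Δ ⊓ Δ'), inferInstance, fun φ y => ?_⟩
  let P : W.H Q.X →ₗ[W.K] (W.H Y.X × W.H Y'.X) := p.prod q
  obtain ⟨L, hL⟩ := LinearMap.exists_leftInverse_of_injective P (by
    rw [LinearMap.ker_eq_bot']
    intro x hx
    exact hinj x (congrArg Prod.fst hx) (congrArg Prod.snd hx))
  obtain ⟨r, hr, hrg⟩ := hc (φ ∘ₗ L ∘ₗ LinearMap.inl W.K _ _) (p y)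
  obtain ⟨s, hs, hsg⟩ := hc' (φ ∘ₗ L ∘ₗ LinearMap.inr W.K _ _) (q y)
  refine ⟨r + s, Subalgebra.add_mem _ hr hs, fun g hg => ?_⟩
  have h1 : Q.act g y = L (P (Q.act g y)) := (LinearMap.congr_fun hL _).symm
  have h2 : P (Q.act g y) = LinearMap.inl W.K _ _ (Y.act g (p y)) +
      LinearMap.inr W.K _ _ (Y'.act g (q y)) := by
    obtain ⟨h3, h4⟩ := heq g hg.1 g.2 y
    refine Prod.ext ?_ ?_
    · change p (Q.act g y) = Y.act g (p y) + 0
      rw [h3, add_zero]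
    · change q (Q.act g y) = 0 + Y'.act g (q y)
      rw [h4, zero_add]
  rw [h1, h2, map_add, map_add, Pi.add_apply, ← hrg g hg.2.1, ← hsg g hg.2.2]
  rfl

theorem built_self : BuiltFrom χ Z Z :=
  ⟨⊤, inferInstance, fun φ y => ⟨_, Algebra.subset_adjoin ⟨φ, y, rfl⟩, fun _ _ => rfl⟩⟩

theorem tower_built {Y : GVar W Γ} (h : Tower χ Z Y) : BuiltFrom χ Z Y := by
  induction h with
  | self => exact built_self
  | prod _ _ hQ ih ih' => exact built_prod ih ih' hQ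
  | part _ _ hQ ih ih' => exact built_part ih ih' hQ

/-- **The theorem.** -/
theorem final {ι : Type w} (χ : Γ →* W.Kˣ) (N : ι → Subgroup Γ) (hN : Independent χ N)
    (Z : GVar W Γ) :
    ∃ E : Set ι, E.Finite ∧ ((E.ncard : ℕ) : WithBot ℕ∞) ≤ coefDim χ Z.act ∧
      ∀ Y : GVar W Γ, BuiltFrom χ Z Y → IsGalois χ Y →
      ∀ F : Finset ι, (∀ i ∈ F, i ∉ E) → ∀ P : GVar W Γ, BelongsTo χ N F P →
        TateKunneth χ Y P ∧ ∀ Q : GVar W Γ, IsProduct Y P Q →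
          HasPoint (algClasses W Y.X Y.X.dim) (W.tr Y.X) →
          HasPoint (algClasses W P.X P.X.dim) (W.tr P.X) →
          (TateConjecture χ Q ↔ TateConjecture χ Y ∧ TateConjecture χ P) := by
  classical
  have hfd : FiniteDimensional W.K (W.H Z.X) := inferInstance
  have hno : IsNoetherianRing (coefAlgebra χ Z.act) := coefAlg_noeth (χ := χ) (ρ := algR Z.act)
  obtain ⟨E, hE, hgood⟩ := exists_exceptional (R := coefAlgebra χ Z.act) (N := res χ N)
    (coefAlg_inv (χ := χ) (ρ := algR Z.act)) (res_indep hN)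
  refine ⟨E, E.finite_toSet, ?_, ?_⟩
  · rw [Set.ncard_coe_finset]
    exact hE
  intro Y hY hGY F hF P hP
  have hF0 : NF χ N (algR Y.act) F ≤ Submodule.span W.K (tateClasses χ Y) := by
    obtain ⟨Δ, hΔ, hc⟩ := hY
    have h1 := NF_of_good (ρ := algR Y.act) (hgood F
      (Finset.disjoint_left.2 fun i hi hiE => hF i hi (Finset.mem_coe.2 hiE))) hΔ hc
    refine h1.trans fun c hc => ?_
    refine hGY.pure c ((mem_NF.1 hc).subset ?_)
    rintro _ ⟨g, hg, rfl⟩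
    exact ⟨g, ⟨hg, fun i hi => absurd hi (Finset.notMem_empty i)⟩, rfl⟩
  refine ⟨?_, ?_⟩
  · intro υ h1 h2 z hz
    obtain ⟨j, hzj, Δ, hΔ, hz⟩ := hz
    exact tw_step h1 h2 hzj hΔ hz fun ψ =>
      hF0 (slice_NF (ρ := Y.act) (N := N) h1 h2 hP hΔ hz ψ)
  · rintro _ ⟨υ, h1, h2⟩ hpY hpP
    constructor
    · intro hT
      exact ⟨tate_fst h1 hpP hT, tate_snd h2 hpY hT⟩
    · rintro ⟨hTY, hTP⟩
      rintro j z hzj ⟨Δ, hΔ, hz⟩
      exact tate_step h1 h2 hTY hTP hzj hΔ hz fun ψ =>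
        hF0 (slice_NF (ρ := Y.act) (N := N) h1 h2 hP hΔ hz ψ)

end

end Pool.Agent.L5helper68.TU
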